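import Pool.Agent.Lib.MP_459ac8_an.Y42C
import Pool.Agent.Lib.MP_459ac8_an.Y42D

/-!
The Blaschke condition is the only obstruction on the moduli of a representing system of Cauchy
kernels; the system can be taken of upper density zero and representing in every order.
-/

namespace Pool.Agent.Results.MP_459ac8_an.AnyModuli

open Pool.Agent.Lib.MP_459ac8_an Filter Topology

theorem result (r : ℕ → ℝ) (hmono : Monotone r) (h0 : 0 < r 0) (h1 : ∀ n, r n < 1)
    (hlim : Tendsto r atTop (𝓝 1)) :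
    List.TFAE [¬ Summable fun n => 1 - r n,
      ∃ Λ : ℕ → ℂ, Function.Injective Λ ∧ (∀ n, ‖Λ n‖ = r n) ∧
        ∀ (σ : Equiv.Perm ℕ) (p : ℝ), 1 < p → Representing p fun n => Λ (σ n),
      ∃ Λ : ℕ → ℂ, Function.Injective Λ ∧ (∀ n, r n ≤ ‖Λ n‖ ∧ ‖Λ n‖ < 1) ∧
        upperDensity (Set.range Λ) = 0 ∧
        ∀ (σ : Equiv.Perm ℕ) (p : ℝ), 1 < p → Representing p fun n => Λ (σ n)] := by
  have nec : ∀ Λ : ℕ → ℂ, (∀ n, r n ≤ ‖Λ n‖ ∧ ‖Λ n‖ < 1) → Representing 2 Λ →
      ¬ Summable fun n => 1 - r n := fun Λ h hR hs =>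
    Y42.not_summable (fun n => (h n).2) h0 (fun n => (hmono (Nat.zero_le n)).trans (h n).1)
      one_lt_two hR (hs.of_nonneg_of_le (fun n => by linarith [(h n).2])
        fun n => by linarith [(h n).1])
  tfae_have 1 → 2 := Y42.exists_rep hmono h0 h1 hlim
  tfae_have 2 → 1 := fun ⟨Λ, _, h, hR⟩ =>
    nec Λ (fun n => ⟨(h n).ge, (h n).trans_lt (h1 n)⟩) (hR 1 2 one_lt_two)
  tfae_have 3 → 1 := fun ⟨Λ, _, h, _, hR⟩ => nec Λ h (hR 1 2 one_lt_two)
  tfae_have 1 → 3 := fun hs => by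
    obtain ⟨e, e1, e2, e3, e4, e5⟩ := Y42.exists_thin (d := fun n => 1 - r n)
      (fun i j hij => sub_le_sub_left (hmono hij) 1) (fun n => by linarith [h1 n]) hs
    have e6 : Tendsto e atTop (𝓝 0) := squeeze_zero (fun n => (e2 n).le) e3
      (by simpa using hlim.const_sub 1)
    obtain ⟨Λ, g1, g2, g3⟩ := Y42.exists_rep (r := fun n => 1 - e n)
      (fun i j hij => sub_le_sub_left (e1 hij) 1) (by linarith [e3 0]) (fun n => by linarith [e2 n])
      (by simpa using e6.const_sub 1) (by simpa using e4)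
    refine ⟨Λ, g1, fun n => ⟨by linarith [g2 n, e3 n], by linarith [g2 n, e2 n]⟩,
      Y42.density_zero ?_, g3⟩
    simpa [g2] using e5
  tfae_finish

end Pool.Agent.Results.MP_459ac8_an.AnyModuli
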