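import Pool.Agent.FS.Uncond459.D
import Pool.Agent.Lib.MP_459ac8_an.Y42D

/-!
Unconditional expansions in Cauchy kernels in the Hardy space of exponent two, at points of upper
density zero whose moduli lie above any prescribed sequence that violates the Blaschke condition.
-/

namespace Pool.Agent.Results.MP_459ac8_an.Unconditional

open Pool.Agent.Lib.MP_459ac8_an Filter Topology

/-- Every function of the Hardy space of exponent two is the sum of an unconditionally convergent
series of Cauchy kernels at the points `Λ n`: the finite subsums converge along the directed set of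
finite sets of indices. -/
def UncondRepresenting (Λ : ℕ → ℂ) : Prop :=
  ∀ f : ℂ → ℂ, DifferentiableOn ℂ f (Metric.ball 0 1) → hardyNorm 2 f < ⊤ →
    ∃ c : ℕ → ℂ, Tendsto
      (fun E : Finset ℕ => hardyNorm 2 fun z =>
        f z - ∑ n ∈ E, c n * (1 / (1 - (starRingEnd ℂ) (Λ n) * z)))
      atTop (𝓝 0)

theorem result (r : ℕ → ℝ) (hmono : Monotone r) (h0 : 0 < r 0) (h1 : ∀ n, r n < 1)
    (hlim : Tendsto r atTop (𝓝 1)) (hs : ¬ Summable fun n => 1 - r n) :
    ∃ Λ : ℕ → ℂ, Function.Injective Λ ∧ (∀ n, r n ≤ ‖Λ n‖ ∧ ‖Λ n‖ < 1) ∧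
      upperDensity (Set.range Λ) = 0 ∧ UncondRepresenting Λ := by
  obtain ⟨e, e1, e2, e3, e4, e5⟩ := Y42.exists_thin (d := fun n => 1 - r n)
    (fun i j hij => sub_le_sub_left (hmono hij) 1) (fun n => by linarith [h1 n]) hs
  have e6 : Tendsto e atTop (𝓝 0) := squeeze_zero (fun n => (e2 n).le) e3
    (by simpa using hlim.const_sub 1)
  obtain ⟨Λ, g1, g2, g3⟩ := Pool.Agent.FS.Uncond459.exists_unc (r := fun n => 1 - e n)
    (fun i j hij => sub_le_sub_left (e1 hij) 1) (by linarith [e3 0]) (fun n => by linarith [e2 n])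
    (by simpa using e6.const_sub 1) (by simpa using e4)
  refine ⟨Λ, g1, fun n => ⟨by linarith [g2 n, e3 n], by linarith [g2 n, e2 n]⟩,
    Y42.density_zero ?_, g3⟩
  simpa [g2] using e5

end Pool.Agent.Results.MP_459ac8_an.Unconditional
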